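import Pool.Agent.H865_iso.Fin

/-!
# MP_28b04d_gt, Q1: smoothing coarsely affine and bi-Lipschitz paths

Q1 asks whether every diffeomorphism of `CP²` that acts trivially on homology is smoothly isotopic to the identity.
Such a diffeomorphism is, by the theorems of Perron and Quinn, isotopic to the identity through homeomorphisms; the
question is whether the path can be made smooth.  The theorem is stated for all closed connected smooth 4-manifolds
`M`, `N` (for Q1 `M = N = CP²`) and for all continuous paths `f_t : M → N`, `0 ≤ t ≤ 1`, of maps between two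
diffeomorphisms `f_0`, `f_1`.  Let `e : M → ℝᵐ` and `j : N → ℝᵏ` be injective immersions (by the embedding theorem
of Nash all Riemannian metrics of `M` and `N` are induced by such maps), let `S` be a set of scales which contains
arbitrarily small positive numbers, and let `η < 3 π / 16`.  Suppose that near every `(t, x)` one of the following
conditions holds.

* Coarse coordinates: on every ball of a small radius `s ∈ S` (for the distance `‖e u - e w‖`) every unit linear
  coordinate of `e` differs by at most `η s` from some affine function `ℓ + c` of `j ∘ f_t` for which `‖ℓ‖ ≤ C` and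
  `‖ℓ‖ ‖j (f_t u) - j (f_t y)‖ ≤ C s` on the ball with the centre `y`, with a constant `C` which does not depend on
  the ball and on `t`.
* Bi-Lipschitz: `‖e u - e w‖ ≤ κ ‖j (f_t u) - j (f_t w)‖ ≤ K ‖e u - e w‖` for `u`, `w` near `x` and all times near
  `t`, for some factor `κ` and some `K` with `(K² - 1) / (K² + 1) ≤ η` (for example `K ≤ 1.966`, that is,
  bi-Lipschitz with the constant `1.402`).

Then `f_0` and `f_1` are joined by a smooth path of diffeomorphisms.  The maps `f_t` are not assumed to be injective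
in the first case, and the dependence on `t` is only assumed to be continuous.

The proof.  At one small scale `s ∈ S` the averages of `j ∘ f_t` over the balls of radius `s`, followed by the nearest
point retraction onto `j(N)`, are local diffeomorphisms for all `t`, and this is also true for the averages of all maps
at distance at most `ϑ s` from `j ∘ f_t`; so the averages for close times are joined by linear interpolation.  The
segment from `f_0` to its average is treated with the smoothness of `f_0`.  Finally a path of local diffeomorphisms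
which starts with a diffeomorphism consists of diffeomorphisms, by lifting of homotopies.
-/

set_option autoImplicit false

open Set Filter Topology Metric Function
open scoped Manifold ContDiff

noncomputable section

namespace Pool.Agent.Results.MP_28b04d_gt.CoarselyAffineIsotopy

/-- `ℝ⁴` -/
abbrev R4 : Type := EuclideanSpace ℝ (Fin 4)

/-- the set of scales contains arbitrarily small positive numbers -/
def SmallScales (S : Set ℝ) : Prop := ∀ δ : ℝ, 0 < δ → ∃ s ∈ S, 0 < s ∧ s < δ

section defs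

variable {M N : Type} [TopologicalSpace M] [TopologicalSpace N] {m k : ℕ}

/-- `φ` is a diffeomorphism -/
def IsDiffeo [ChartedSpace R4 M] [ChartedSpace R4 N] (φ : M → N) : Prop :=
  ∃ Φ : Diffeomorph (𝓡 4) (𝓡 4) M N ∞, ∀ x, Φ x = φ x

/-- `φ₀` and `φ₁` are joined by a smooth path of diffeomorphisms -/
def SmoothlyIsotopic [ChartedSpace R4 M] [ChartedSpace R4 N] (φ₀ φ₁ : M → N) : Prop :=
  ∃ K : ℝ × M → N, ContMDiff ((𝓘(ℝ, ℝ)).prod (𝓡 4)) (𝓡 4) ∞ K ∧ (∀ t, IsDiffeo (fun x => K (t, x))) ∧
    (∀ x, K (0, x) = φ₀ x) ∧ ∀ x, K (1, x) = φ₁ x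

/-- `e` is a smooth immersion at `x`: in a smooth parametrization `A` of a neighbourhood of `x = A 0` (a local
diffeomorphism at `0`) it is smooth near `0` with an injective derivative at `0`. -/
def IsImmersed [ChartedSpace R4 M] (e : M → EuclideanSpace ℝ (Fin m)) (x : M) : Prop :=
  ∃ A : R4 → M, A 0 = x ∧ IsLocalDiffeomorphAt (𝓡 4) (𝓡 4) ∞ A 0 ∧
    (∀ᶠ z in 𝓝 (0 : R4), ContDiffAt ℝ ∞ (fun z => e (A z)) z) ∧ Injective (fderiv ℝ (fun z => e (A z)) 0)

/-- `e` is a continuous injective immersion -/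
def IsEmb [ChartedSpace R4 M] (e : M → EuclideanSpace ℝ (Fin m)) : Prop :=
  Continuous e ∧ Injective e ∧ ∀ x, IsImmersed e x

/-- Coarse coordinates near `(t₀, x)`, for a path `F` of maps: there are neighbourhoods `W` of `t₀` and `U` of `x`,
`r > 0` and `C` such that for all `t ∈ W`, `y ∈ U`, all `s ∈ S` with `0 < s < r` and all unit vectors `v` there is an
affine function `ℓ + c` with `‖ℓ‖ ≤ C` such that for the points `u ∈ U` with `‖e u - e y‖ ≤ s` the linear coordinate
`⟪v, e u - e y⟫` differs by at most `η s` from `ℓ (F t u) + c` and `‖ℓ‖ ‖F t u - F t y‖ ≤ C s`. -/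
def CoarseCoordinates (e : M → EuclideanSpace ℝ (Fin m)) (F : unitInterval → M → EuclideanSpace ℝ (Fin k)) (S : Set ℝ)
    (η : ℝ) (t₀ : unitInterval) (x : M) : Prop :=
  ∃ W ∈ 𝓝 t₀, ∃ U ∈ 𝓝 x, ∃ r : ℝ, 0 < r ∧ ∃ C : ℝ, ∀ t ∈ W, ∀ y ∈ U, ∀ s ∈ S, 0 < s → s < r →
    ∀ v : EuclideanSpace ℝ (Fin m), ‖v‖ = 1 →
    ∃ (ℓ : EuclideanSpace ℝ (Fin k) →L[ℝ] ℝ) (c : ℝ), ‖ℓ‖ ≤ C ∧ ∀ u ∈ U, ‖e u - e y‖ ≤ s →
      |ℓ (F t u) + c - inner ℝ v (e u - e y)| ≤ η * s ∧ ‖ℓ‖ * ‖F t u - F t y‖ ≤ C * s

/-- Bi-Lipschitz near `(t₀, x)`: `‖e u - e w‖ ≤ κ ‖F t u - F t w‖ ≤ K ‖e u - e w‖` for all `u`, `w` near `x` and all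
`t` near `t₀`, for some factor `κ`. -/
def BiLipschitz (e : M → EuclideanSpace ℝ (Fin m)) (F : unitInterval → M → EuclideanSpace ℝ (Fin k)) (K : ℝ)
    (t₀ : unitInterval) (x : M) : Prop :=
  ∃ W ∈ 𝓝 t₀, ∃ U ∈ 𝓝 x, ∃ κ : ℝ, ∀ t ∈ W, ∀ u ∈ U, ∀ w ∈ U,
    ‖e u - e w‖ ≤ κ * ‖F t u - F t w‖ ∧ κ * ‖F t u - F t w‖ ≤ K * ‖e u - e w‖

end defs

theorem result (M N : Type) [TopologicalSpace M] [TopologicalSpace N]
    [CompactSpace M] [T2Space M] [ConnectedSpace M] [CompactSpace N] [T2Space N]
    [ChartedSpace R4 M] [ChartedSpace R4 N] [IsManifold (𝓡 4) ∞ M] [IsManifold (𝓡 4) ∞ N]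
    -- the maps which measure distances in `M` and `N`, the set of scales and the constant
    (m k : ℕ) (e : M → EuclideanSpace ℝ (Fin m)) (he : IsEmb e) (j : N → EuclideanSpace ℝ (Fin k)) (hj : IsEmb j)
    (S : Set ℝ) (hS : SmallScales S) (η : ℝ) (hη : η < 3 * Real.pi / 16)
    -- the path of maps
    (f : unitInterval × M → N) (hf : Continuous f)
    (h0 : IsDiffeo (fun x => f (0, x))) (h1 : IsDiffeo (fun x => f (1, x)))
    (hc : ∀ t x, CoarseCoordinates e (fun t x => j (f (t, x))) S η t x ∨
      ∃ K : ℝ, (K ^ 2 - 1) / (K ^ 2 + 1) ≤ η ∧ BiLipschitz e (fun t x => j (f (t, x))) K t x) :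
    SmoothlyIsotopic (fun x => f (0, x)) (fun x => f (1, x)) := by
  obtain ⟨he, hei, he'⟩ := he
  obtain ⟨hj, hji, hj'⟩ := hj
  have hκ : 0 < Pool.Agent.H865_small.vol (3 + 1) / (2 * Pool.Agent.H865_small.vol 3) := by
    have := Pool.Agent.H865_small.vol_pos 3
    have := Pool.Agent.H865_small.vol_pos (3 + 1)
    positivity
  exact Pool.Agent.H865_iso.iso_final 3 m k M N unitInterval e he hei he' j hj hji hj' (fun t x => f (t, x)) hf S hS
    (η := η) (by rw [Pool.Agent.H865_small.const_four]; exact hη) hκ hc 0 1 h0 h1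

end Pool.Agent.Results.MP_28b04d_gt.CoarselyAffineIsotopy
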